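import Pool.Agent.helper88.EF.Defs
import Pool.Agent.helper76.LP.Main2
import Pool.Agent.helper97.OF.MV
import Pool.Agent.helper23.EF.QD

/-! # Project EF, module CO: the condition for the conductor `N` -/

namespace Pool.Agent.helper88.EF

open Finset Pool.Agent.helper76.LP

lemma CO_mdv_sum {G ι α : Type*} [CommGroup G] (Γ : ι → Subgroup G) : ∀ (L : List ι)
    (S : Finset α) (F : α → G → ℤ), (∀ a ∈ S, MDv Γ L (F a)) →
    MDv Γ L (fun x => ∑ a ∈ S, F a x) := by
  intro L
  induction L with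
  | nil =>
    intro S F h x
    exact Finset.sum_eq_zero fun a ha => h a ha x
  | cons i L ih =>
    intro S F h u hu
    have h1 : (fun x => (∑ a ∈ S, F a (u * x)) - ∑ a ∈ S, F a x) =
        fun x => ∑ a ∈ S, (F a (u * x) - F a x) := by
      funext x
      rw [Finset.sum_sub_distrib]
    simp only
    rw [h1]
    exact ih S (fun a x => F a (u * x) - F a x) fun a ha => h a ha u hu

lemma CO_mdv_neg {G ι : Type*} [CommGroup G] (Γ : ι → Subgroup G) : ∀ (L : List ι)
    (f : G → ℤ), MDv Γ L f → MDv Γ L (fun x => - f x) := by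
  intro L
  induction L with
  | nil =>
    intro f h x
    have := h x
    simp [this]
  | cons i L ih =>
    intro f h u hu
    have h1 : (fun x => - f (u * x) - - f x) = fun x => - (f (u * x) - f x) := by
      funext x
      ring
    simp only
    rw [h1]
    exact ih _ (h u hu)

open Classical in
/-- the part of `(q - 1) f` without the direction `q` -/
noncomputable def CO_G (D q : ℕ) [NeZero D] (f : (ZMod D)ˣ → ℤ) (z : (ZMod D)ˣ) : ℤ :=
  ∑ u ∈ (univ : Finset (ZMod D)ˣ).filter (fun u => u ∈ Gam D q), (f z - f (u * z))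

lemma CO_G_mdv (D q : ℕ) [NeZero D] (L : List ℕ) (f : (ZMod D)ˣ → ℤ)
    (hf : MDv (Gam D) (q :: L) f) : MDv (Gam D) L (CO_G D q f) := by
  classical
  unfold CO_G
  refine CO_mdv_sum (Gam D) L _ (fun u z => f z - f (u * z)) ?_
  intro u hu
  have h1 := CO_mdv_neg (Gam D) L _ (hf u (Finset.mem_filter.1 hu).2)
  have h2 : (fun x => - (f (u * x) - f x)) = fun z => f z - f (u * z) := by
    funext x
    ring
  rw [h2] at h1
  exact h1

lemma CO_G_odd (D q : ℕ) [NeZero D] (f : (ZMod D)ˣ → ℤ) (hf : ∀ x, f (-x) = - f x)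
    (z : (ZMod D)ˣ) : CO_G D q f (-z) = - CO_G D q f z := by
  classical
  unfold CO_G
  rw [← Finset.sum_neg_distrib]
  refine Finset.sum_congr rfl fun u _ => ?_
  rw [mul_neg, hf, hf]
  ring

lemma CO_ne {N q : ℕ} [NeZero N] (h3 : 3 ≤ q) : N * q ≠ N := by
  have hN : 0 < N := Nat.pos_of_ne_zero (NeZero.ne N)
  intro h
  have : N * 3 ≤ N * q := Nat.mul_le_mul_left N h3
  omega

/-- `(q - 1) f = V + G` -/
lemma CO_G_eq (q N : ℕ) [NeZero N] [NeZero (N * q)] (hq : q.Prime) (hqN : q.Coprime N)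
    (f : (ZMod (N * q))ˣ → ℤ) (z : (ZMod (N * q))ˣ) :
    CO_G (N * q) q f z = ((q : ℤ) - 1) * f z -
      Vs (Dvd.intro q rfl) f (ZMod.unitsMap (Dvd.intro q rfl : N ∣ N * q) z) := by
  classical
  unfold CO_G
  rw [Finset.sum_sub_distrib, Finset.sum_const]
  have hcard : ((univ : Finset (ZMod (N * q))ˣ).filter (fun u => u ∈ Gam (N * q) q)).card =
      q - 1 := by
    have h1 := card_Gam (N * q) q hq (Dvd.intro_left N rfl)
    rw [if_neg] at h1
    · rw [← h1, Nat.card_eq_fintype_card, Fintype.card_subtype]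
    · intro h
      have hN : 0 < N := Nat.pos_of_ne_zero (NeZero.ne N)
      rw [pow_two] at h
      have h2 : q ∣ N := Nat.dvd_of_mul_dvd_mul_right hq.pos h
      exact (hq.coprime_iff_not_dvd.mp hqN) h2
  rw [hcard]
  have hq1 := hq.one_lt
  have h4 : ((q - 1 : ℕ) : ℤ) = (q : ℤ) - 1 := by
    rw [Nat.cast_sub hq1.le]
    rfl
  rw [nsmul_eq_mul, h4]
  congr 1
  unfold Vs
  rw [← Finset.sum_filter]
  symm
  refine Finset.sum_nbij' (fun w => w * z⁻¹) (fun u => u * z) ?_ ?_ ?_ ?_ ?_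
  · intro w hw
    rw [Finset.mem_filter] at hw ⊢
    refine ⟨Finset.mem_univ _, ?_⟩
    rw [GA_mem (e := N) rfl hq.pos, map_mul, map_inv, hw.2, mul_inv_cancel]
  · intro u hu
    rw [Finset.mem_filter] at hu ⊢
    refine ⟨Finset.mem_univ _, ?_⟩
    have h5 := (GA_mem (e := N) rfl hq.pos u).1 hu.2
    rw [map_mul, h5, one_mul]
  · intro w _
    simp
  · intro u _
    simp
  · intro w _
    simp

lemma CO_V_odd (q N : ℕ) [NeZero (N * q)] (f : (ZMod (N * q))ˣ → ℤ)
    (hf : ∀ x, f (-x) = - f x) (y : (ZMod N)ˣ) :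
    Vs (Dvd.intro q rfl : N ∣ N * q) f (-y) = - Vs (Dvd.intro q rfl : N ∣ N * q) f y := by
  unfold Vs
  rw [← Equiv.sum_comp (Equiv.neg (ZMod (N * q))ˣ), ← Finset.sum_neg_distrib]
  refine Finset.sum_congr rfl fun w _ => ?_
  rw [Equiv.neg_apply, SP_um_neg, hf]
  simp only [neg_inj]
  split_ifs <;> simp

theorem cond (m q N : ℕ) [NeZero m] [NeZero N] [NeZero (N * q)] (hq : q.Prime) (h3 : 3 ≤ q)
    (hqN : q.Coprime N) (hD : N * q ∣ m) (c : ZMod m → ℤ) (hT : TateF (anti c))
    (hmax : ∀ x, N ∣ addOrderOf x → addOrderOf x ≠ N * q → anti c x = 0)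
    (L : List ℕ) (hnd : L.Nodup) (hL : L.toFinset = N.primeFactors) :
    MDv (Gam N) L (fun y =>
      Vs (Dvd.intro q rfl) (fun z => anti c (emb (N * q) m (z : ZMod (N * q)))) y -
      Vs (Dvd.intro q rfl) (fun z => anti c (emb (N * q) m (z : ZMod (N * q))))
        (ZMod.unitOfCoprime q hqN * y)) := by
  classical
  set f : (ZMod (N * q))ˣ → ℤ := fun z => anti c (emb (N * q) m (z : ZMod (N * q))) with hf
  have hfodd : ∀ x, f (-x) = - f x := by
    intro x
    rw [hf]
    simp only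
    rw [Units.val_neg, emb_neg hD, anti_odd]
  have hN0 : 0 < N := Nat.pos_of_ne_zero (NeZero.ne N)
  have hNm : N ∣ m := (Dvd.intro q rfl).trans hD
  have hqL : q ∉ L := by
    intro h
    have h1 : q ∈ N.primeFactors := by
      rw [← hL]
      exact List.mem_toFinset.2 h
    exact (hq.coprime_iff_not_dvd.mp hqN) (Nat.dvd_of_mem_primeFactors h1)
  have hnd' : (q :: L).Nodup := List.nodup_cons.2 ⟨hqL, hnd⟩
  have hL' : (q :: L).toFinset = (N * q).primeFactors := by
    rw [List.toFinset_cons, hL, Nat.primeFactors_mul hN0.ne' hq.ne_zero, hq.primeFactors]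
    ext x
    simp only [Finset.mem_insert, Finset.mem_union, Finset.mem_singleton]
    tauto
  have hmd : MDv (Gam (N * q)) (q :: L) f := by
    refine mdiff m (anti c) (anti_odd c) hT (N * q) hD ?_ (q :: L) ?_
    · intro x h1 h2
      exact hmax x ((Dvd.intro q rfl).trans h1) h2
    · intro p hp
      rw [← hL'] at hp
      exact List.mem_toFinset.1 hp
  obtain ⟨Np, hN1, hN2, hN3⟩ := qdec (N * q) q hq h3 L hnd' hL' (CO_G (N * q) q f)
    (CO_G_odd (N * q) q f hfodd) (CO_G_mdv (N * q) q L f hmd)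
  -- the direction `q`
  have hinv : ∀ u ∈ Gam (N * q) q, ∀ x, Vs (Dvd.intro q rfl) f
      (ZMod.unitsMap (Dvd.intro q rfl : N ∣ N * q) (u * x)) =
        Vs (Dvd.intro q rfl) f (ZMod.unitsMap (Dvd.intro q rfl : N ∣ N * q) x) := by
    intro u hu x
    rw [map_mul, (GA_mem (e := N) rfl hq.pos u).1 hu, one_mul]
  obtain ⟨g, ν, hg1, -, -, hg2, hg3, -⟩ := Pool.Agent.helper88.OF.move1 m (N * q) N q hD rfl hq
    (fun z => Vs (Dvd.intro q rfl) f (ZMod.unitsMap (Dvd.intro q rfl : N ∣ N * q) z)) hinv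
    (fun x => by rw [SP_um_neg, CO_V_odd q N f hfodd])
  have hν : ν = Vs (Dvd.intro q rfl) f := by
    funext y
    obtain ⟨z, rfl⟩ := ZMod.unitsMap_surjective (Dvd.intro q rfl : N ∣ N * q) y
    exact (hg1 z).symm
  -- the other directions
  have key : ∀ p : ℕ, ∃ G Q : ZMod m → ℤ, p ∈ L →
      (∀ z : (ZMod (N * q))ˣ, anti G (emb (N * q) m (z : ZMod (N * q))) = Np p z) ∧
      (∀ x, addOrderOf x ≠ N * q → anti G x = - Q x) ∧
      (∀ x, Q x ≠ 0 → addOrderOf x = N * q / p) ∧ TateF (anti G) := by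
    intro p
    by_cases hp : p ∈ L
    · have hp' : p ∈ (N * q).primeFactors := by
        rw [← hL']
        exact List.mem_toFinset.2 (List.mem_cons_of_mem q hp)
      have hpp := Nat.prime_of_mem_primeFactors hp'
      have hpd := Nat.dvd_of_mem_primeFactors hp'
      have hD0 : 0 < N * q := Nat.pos_of_ne_zero (NeZero.ne _)
      have : NeZero (N * q / p) := ⟨(Nat.div_pos (Nat.le_of_dvd hD0 hpd) hpp.pos).ne'⟩
      obtain ⟨G, Q, h⟩ := SP_one m (N * q) (N * q / p) p hD (Nat.div_mul_cancel hpd) hpp (Np p)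
        (hN1 p hp) (hN3 p hp)
      exact ⟨G, Q, fun _ => ⟨h.1, h.2.1, h.2.2.1, h.2.2.2.2.1⟩⟩
    · exact ⟨0, 0, fun h => absurd h hp⟩
  choose G Q hGQ using key
  have hne := CO_ne (N := N) h3
  -- the modified function
  set F : ZMod m → ℤ := fun x => ((q : ℤ) - 1) * anti c x - anti g x -
    ∑ p ∈ L.toFinset, anti (G p) x with hF
  have hFodd : ∀ x, F (-x) = - F x := by
    intro x
    rw [hF]
    simp only
    rw [anti_odd, anti_odd, Finset.sum_congr rfl fun p _ => anti_odd (G p) x,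
      Finset.sum_neg_distrib]
    ring
  have hFT : TateF F := by
    intro t
    have h1 : ∀ x, F x * saw m ((t : ZMod m) * x) =
        ((q : ℤ) - 1) * (anti c x * saw m ((t : ZMod m) * x)) -
          anti g x * saw m ((t : ZMod m) * x) -
          ∑ p ∈ L.toFinset, anti (G p) x * saw m ((t : ZMod m) * x) := by
      intro x
      rw [hF]
      simp only
      rw [sub_mul, sub_mul, Finset.sum_mul]
      ring
    rw [Finset.sum_congr rfl fun x _ => h1 x, Finset.sum_sub_distrib, Finset.sum_sub_distrib,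
      ← Finset.mul_sum, hT t, hg3 t, Finset.sum_comm,
      Finset.sum_congr rfl fun p hp => (hGQ p (List.mem_toFinset.1 hp)).2.2.2 t]
    simp
  have hQ0 : ∀ x, N ∣ addOrderOf x → ∀ p ∈ L, Q p x = 0 := by
    intro x hx p hp
    by_contra h
    have h1 := (hGQ p hp).2.2.1 x h
    have hpN : p ∈ N.primeFactors := by
      rw [← hL]
      exact List.mem_toFinset.2 hp
    have hpp := Nat.prime_of_mem_primeFactors hpN
    obtain ⟨k, hk⟩ := Nat.dvd_of_mem_primeFactors hpN
    have hk0 : 0 < k := Nat.pos_of_ne_zero (by rintro rfl; omega)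
    have h2 : N * q / p = k * q := by
      rw [hk, mul_assoc, Nat.mul_div_cancel_left _ hpp.pos]
    rw [h1, h2] at hx
    have h4 : N ∣ k := (Nat.Coprime.dvd_of_dvd_mul_right hqN.symm hx)
    have h5 := Nat.le_of_dvd hk0 h4
    have h6 := hpp.two_le
    have h7 : 2 * k ≤ p * k := Nat.mul_le_mul_right k h6
    omega
  have hFmax : ∀ x, N ∣ addOrderOf x → addOrderOf x ≠ N → F x = 0 := by
    intro x hx hx2
    by_cases hx3 : addOrderOf x = N * q
    · obtain ⟨z, rfl⟩ := exists_emb x hx3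
      rw [hF]
      simp only
      rw [hg2, ext_emb hD, ext_of_order_ne hNm _ _ hx2,
        Finset.sum_congr rfl fun p hp => (hGQ p (List.mem_toFinset.1 hp)).1 z, ← hN2 z,
        CO_G_eq q N hq hqN f z]
      ring
    · rw [hF]
      simp only
      rw [hmax x hx hx3, hg2, ext_of_order_ne hD _ _ hx3, ext_of_order_ne hNm _ _ hx2,
        Finset.sum_congr rfl fun p hp => (hGQ p (List.mem_toFinset.1 hp)).2.1 x hx3,
        Finset.sum_congr rfl fun p hp => by rw [hQ0 x hx p (List.mem_toFinset.1 hp)]]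
      simp
  have hfin := mdiff m F hFodd hFT N hNm hFmax L (by
    intro p hp
    rw [← hL] at hp
    exact List.mem_toFinset.1 hp)
  have hval : (fun z : (ZMod N)ˣ => F (emb N m (z : ZMod N))) = fun y =>
      Vs (Dvd.intro q rfl) f y - Vs (Dvd.intro q rfl) f (ZMod.unitOfCoprime q hqN * y) := by
    funext y
    have ho : addOrderOf (emb N m (y : ZMod N)) = N := addOrderOf_emb hNm y
    have ho2 : addOrderOf (emb N m (y : ZMod N)) ≠ N * q := by
      rw [ho]
      exact fun h => hne h.symm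
    have hod : N ∣ addOrderOf (emb N m (y : ZMod N)) := by rw [ho]
    rw [hF]
    simp only
    rw [hmax _ hod ho2, hg2, ext_of_order_ne hD _ _ ho2, ext_emb hNm,
      Finset.sum_congr rfl fun p hp => (hGQ p (List.mem_toFinset.1 hp)).2.1 _ ho2,
      Finset.sum_congr rfl fun p hp => by rw [hQ0 _ hod p (List.mem_toFinset.1 hp)]]
    unfold Rop
    rw [dif_pos hqN, hν]
    simp
  rw [hval] at hfin
  exact hfin

end Pool.Agent.helper88.EF
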