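import Pool.Agent.helper88.EF.Defs
import Pool.Agent.helper76.LP.Main2
import Pool.Agent.helper97.OF.S2

/-! # Project EF, module FX: one step with an exceptional class -/

namespace Pool.Agent.helper88.EF

open Finset Pool.Agent.helper76.LP

open Pool.Agent.helper34.DH in
theorem ndec_step (E : AddSubgroup Qt) (hE : hh ∈ E) (m : ℕ) [NeZero m] (D : ℕ) [NeZero D]
    (hD : D ∣ m) (c : ZMod m → ℤ) (hT : TateF (anti c))
    (hdec : NDec D (fun z => anti c (emb D m (z : ZMod D)))) :
    ∃ c' : ZMod m → ℤ, TateF (anti c') ∧ (∀ x, addOrderOf x = D → anti c' x = 0) ∧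
      (∀ x, ¬ addOrderOf x ∣ D → anti c' x = anti c x) ∧ cls m c - cls m c' ∈ E := by
  obtain ⟨c', h1, h2, h3, j, hj⟩ := Pool.Agent.helper88.OF.step3 m D hD c hT hdec
  refine ⟨c', h1, h2, ?_, ?_⟩
  · intro x hx
    apply h3 x
    · intro h
      exact hx (h ▸ dvd_rfl)
    · intro p hp h
      exact hx (h ▸ Nat.div_dvd_of_dvd (Nat.dvd_of_mem_primeFactors hp))
  · rw [hj]
    have h4 : cls m c - (cls m c + j • hh) = -(j • hh) := by abel
    rw [h4]
    exact E.neg_mem (E.zsmul_mem hE j)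

open Pool.Agent.helper34.DH in
theorem fix_step (E : AddSubgroup Qt) (hE : hh ∈ E) (m : ℕ) [NeZero m] (D : ℕ) [NeZero D]
    (hD : D ∣ m) (hF : FixE E D) (c : ZMod m → ℤ) (hT : TateF (anti c))
    (hmax : ∀ x, D ∣ addOrderOf x → addOrderOf x ≠ D → anti c x = 0) :
    ∃ c' : ZMod m → ℤ, TateF (anti c') ∧ (∀ x, addOrderOf x = D → anti c' x = 0) ∧
      (∀ x, ¬ addOrderOf x ∣ D → anti c' x = anti c x) ∧ cls m c - cls m c' ∈ E := by
  obtain ⟨e, he1, he2, he3⟩ := hF
  set c2 : ZMod m → ℤ := fun x => c x - push D m e x with hc2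
  have ha : ∀ x, anti c2 x = anti c x - push D m (anti e) x := by
    intro x
    rw [hc2, anti_sub, anti_push D m hD]
  have hT2 : TateF (anti c2) := by
    intro t
    have h1 := hT t
    have h2 := tateF_push D m hD (anti e) he1 t
    simp_rw [ha, sub_mul]
    rw [Finset.sum_sub_distrib, h1, h2, sub_zero]
  have hp0 : ∀ x, ¬ addOrderOf x ∣ D → push D m (anti e) x = 0 := by
    intro x hx
    by_contra h
    exact hx (push_order D m hD _ x h)
  have hmax2 : ∀ x, D ∣ addOrderOf x → addOrderOf x ≠ D → anti c2 x = 0 := by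
    intro x h1 h2
    rw [ha, hmax x h1 h2, hp0 x (fun h => h2 (Nat.dvd_antisymm h h1)), sub_zero]
  have hodd : ∀ c : ZMod m → ℤ, ∀ x : (ZMod D)ˣ, anti c (emb D m ((-x : (ZMod D)ˣ) : ZMod D)) =
      - anti c (emb D m (x : ZMod D)) := by
    intro c x
    rw [Units.val_neg, emb_neg hD, anti_odd]
  have hmd : ∀ c : ZMod m → ℤ, TateF (anti c) →
      (∀ x, D ∣ addOrderOf x → addOrderOf x ≠ D → anti c x = 0) →
      ∀ L : List ℕ, L.Nodup → L.toFinset = D.primeFactors →
        MDv (Gam D) L (fun z => anti c (emb D m (z : ZMod D))) := by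
    intro c hT hm L _ hL
    refine mdiff m (anti c) (anti_odd c) hT D hD hm L ?_
    intro p hp
    rw [← hL] at hp
    exact List.mem_toFinset.1 hp
  have h := he3 (fun z => anti c (emb D m (z : ZMod D)))
    (fun z => anti c2 (emb D m (z : ZMod D))) (hodd c) (hmd c hT hmax)
    (by funext z; rw [ha, push_emb D m hD]) (hodd c2) (hmd c2 hT2 hmax2)
  rcases h with h | h
  · exact ndec_step E hE m D hD c hT h
  · obtain ⟨c', h1, h2, h3, h4⟩ := ndec_step E hE m D hD c2 hT2 h
    refine ⟨c', h1, h2, ?_, ?_⟩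
    · intro x hx
      rw [h3 x hx, ha, hp0 x hx, sub_zero]
    · have h5 : cls m c2 = cls m c - cls D e := by
        rw [hc2, cls_sub, cls_push D m hD]
      have h6 : cls m c - cls m c' = (cls m c2 - cls m c') + cls D e := by
        rw [h5]; abel
      rw [h6]
      exact E.add_mem h4 he2

end Pool.Agent.helper88.EF
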